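import Mathlib
import Pool.Agent.Lib.MP_cc0c1a_nt.Aed.Main

set_option autoImplicit false

/-!
# MP_cc0c1a_nt: along almost every curve in space-time all nonzero finite configurations have a
dense orbit

Question 2 asks whether the configurations `F^n(x)`, seen from the fixed position `0`, are dense for
every finite `x` other than the all-zero one. Here the fixed position is replaced by the moving
position `⌊h(n) + a g(n)⌋`, where `h` is any curve, `g(n) → ∞` (as slowly as we like) and `a` is a
real parameter. For all parameters `a` outside a σ-porous set (which is a null set) the answer is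
yes, for all finite configurations at once, as long as the curve is eventually 1-Lipschitz and well
inside the cone of the support infinitely often. For `h = 0`, `g(n) = n` these are all slopes `a`
with `-log_6(3/2) < a < 1`.

The proof: every macroscopic path in the space-time diagram has a point with all words nearby
(zero triangles of `g 3^b / 2^a` modulo one, Subspace theorem, Furstenberg's theorem). So near every
exceptional parameter there are, at arbitrarily small scales, intervals of proportional length of
parameters for which the given word is shown exactly at the moving position.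
-/

open Filter MeasureTheory

namespace Pool.Agent.Results.MP_cc0c1a_nt.AlmostEveryDirection

/-- A configuration: a two-sided infinite word over the alphabet `{0,...,5}`, with the product
topology of the discrete topology. -/
abbrev Config : Type := ℤ → Fin 6

/-- The local rule `f(s,t) = (3 s mod 6) + ⌊3 t / 6⌋`. -/
def localRule (s t : Fin 6) : Fin 6 :=
  ⟨(3 * s.val) % 6 + (3 * t.val) / 6, by omega⟩

/-- The automaton `F_{×3}`. -/
def Fx3 (x : Config) : Config := fun i => localRule (x i) (x (i + 1))

/-- The right shift `σ⁻¹`. -/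
def rightShift (x : Config) : Config := fun i => x (i - 1)

/-- The automaton `F = F_{×3} ∘ F_{×3} ∘ σ⁻¹`. -/
def F (x : Config) : Config := Fx3 (Fx3 (rightShift x))

/-- Finite configurations: only finitely many nonzero digits. -/
def IsFin (x : Config) : Prop := {i : ℤ | x i ≠ 0}.Finite

/-- The configuration `σ^j F^n(x)`: the configuration `F^n(x)` seen from the position `j`. -/
def seen (x : Config) (n : ℕ) (j : ℤ) : Config := fun i => F^[n] x (j + i)

/-- The curve `n ↦ h(n) + a g(n)` is eventually `1`-Lipschitz and, for some `ε > 0`, it satisfies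
`(-log_6(3/2) + ε) n ≤ h(n) + a g(n) ≤ (1 - ε) n` for infinitely many `n`. -/
def Adm (h g : ℕ → ℝ) (a : ℝ) : Prop :=
  (∀ᶠ n : ℕ in atTop, |(h (n + 1) + a * g (n + 1)) - (h n + a * g n)| ≤ 1) ∧
    ∃ ε : ℝ, 0 < ε ∧ ∃ᶠ n : ℕ in atTop,
      (-(Real.logb 6 (3 / 2)) + ε) * n ≤ h n + a * g n ∧ h n + a * g n ≤ (1 - ε) * n

/-- Around each of its points the set has, at arbitrarily small scales, holes of proportional
size. -/
def Porous (S : Set ℝ) : Prop :=
  ∃ K : ℝ, ∀ a ∈ S, ∀ δ : ℝ, 0 < δ → ∃ y s : ℝ, 0 < s ∧ s < δ ∧ |a - y| ≤ K * s ∧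
    Disjoint S (Metric.closedBall y s)

/-- `S` is contained in a countable union of porous sets. -/
def SigmaPorous (S : Set ℝ) : Prop :=
  ∃ T : ℕ → Set ℝ, (∀ k, Porous (T k)) ∧ S ⊆ ⋃ k, T k

/-- The set of the admissible parameters `a` for which, for some finite configuration `x` other than
the all-zero one, the configurations `σ^⌊h(n) + a g(n)⌋ F^n(x)`, `n ≥ 0`, are not dense. -/
def Exceptional (h g : ℕ → ℝ) : Set ℝ :=
  {a : ℝ | Adm h g a ∧ ¬ ∀ x : Config, IsFin x → x ≠ 0 →
    Dense (Set.range fun n : ℕ => seen x n ⌊h n + a * g n⌋)}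

/-- First example: for `h = 0`, `g(n) = n` every slope in the open cone is admissible. -/
theorem adm_slope {a : ℝ} (ha : -(Real.logb 6 (3 / 2)) < a) (ha1 : a < 1) :
    Adm (fun _ => 0) (fun n => (n : ℝ)) a := by
  have hL : Real.logb 6 (3 / 2) ≤ 1 := by
    rw [Real.logb_le_iff_le_rpow (by norm_num) (by norm_num)]
    norm_num
  refine ⟨Eventually.of_forall fun n => ?_, min (a + Real.logb 6 (3 / 2)) (1 - a),
    lt_min (by linarith) (by linarith), Frequently.of_forall fun n => ⟨?_, ?_⟩⟩
  · have e : (0 + a * ((n + 1 : ℕ) : ℝ)) - (0 + a * (n : ℝ)) = a := by push_cast; ring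
    simp only [e]
    rw [abs_le]
    constructor <;> linarith
  · have h1 := min_le_left (a + Real.logb 6 (3 / 2)) (1 - a)
    have h2 : (-(Real.logb 6 (3 / 2)) + min (a + Real.logb 6 (3 / 2)) (1 - a)) * n ≤ a * n :=
      mul_le_mul_of_nonneg_right (by linarith) (by positivity)
    simpa using h2
  · have h1 := min_le_right (a + Real.logb 6 (3 / 2)) (1 - a)
    have h2 : a * n ≤ (1 - min (a + Real.logb 6 (3 / 2)) (1 - a)) * n :=
      mul_le_mul_of_nonneg_right (by linarith) (by positivity)
    simpa using h2

/-- Second example: for `h(n) = v n` with a slope `v` in the open cone (for instance `v = 0`) and a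
slowly growing `g` every real number `a` is admissible. -/
theorem adm_drift {v : ℝ} (hv : -(Real.logb 6 (3 / 2)) < v) (hv1 : v < 1) (g : ℕ → ℝ)
    (hg1 : Tendsto (fun n => g (n + 1) - g n) atTop (nhds 0))
    (hg2 : Tendsto (fun n => g n / (n : ℝ)) atTop (nhds 0)) (a : ℝ) :
    Adm (fun n => v * (n : ℝ)) g a := by
  have hL : Real.logb 6 (3 / 2) ≤ 1 := by
    rw [Real.logb_le_iff_le_rpow (by norm_num) (by norm_num)]
    norm_num
  have hL0 : 0 < Real.logb 6 (3 / 2) := Real.logb_pos (by norm_num) (by norm_num)
  set κ : ℝ := min (v + Real.logb 6 (3 / 2)) (1 - v) with hκ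
  have hκ0 : 0 < κ := lt_min (by linarith) (by linarith)
  have hκ1 : κ ≤ v + Real.logb 6 (3 / 2) := min_le_left _ _
  have hκ2 : κ ≤ 1 - v := min_le_right _ _
  have h1 : Tendsto (fun n => a * (g (n + 1) - g n)) atTop (nhds 0) := by
    simpa using hg1.const_mul a
  have h2 : Tendsto (fun n => a * (g n / (n : ℝ))) atTop (nhds 0) := by
    simpa using hg2.const_mul a
  have h3 : ∀ᶠ n : ℕ in atTop, |a * (g (n + 1) - g n)| < κ := by
    have := (tendsto_order.1 h1.abs).2 κ (by simpa using hκ0)
    exact this
  have h4 : ∀ᶠ n : ℕ in atTop, |a * (g n / (n : ℝ))| < κ / 2 := by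
    have := (tendsto_order.1 h2.abs).2 (κ / 2) (by simpa using half_pos hκ0)
    exact this
  refine ⟨?_, κ / 2, half_pos hκ0, (h4.and (eventually_gt_atTop 0)).frequently.mono ?_⟩
  · filter_upwards [h3] with n hn
    have e : (v * ((n + 1 : ℕ) : ℝ) + a * g (n + 1)) - (v * (n : ℝ) + a * g n) =
        v + a * (g (n + 1) - g n) := by push_cast; ring
    simp only [e]
    rw [abs_lt] at hn
    rw [abs_le]
    constructor <;> linarith [hn.1, hn.2]
  · rintro n ⟨hn, hn0⟩
    have hn0' : (0 : ℝ) < n := by exact_mod_cast hn0
    have e : a * g n = a * (g n / (n : ℝ)) * n := by field_simp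
    rw [abs_lt] at hn
    rw [e]
    constructor
    · nlinarith [hn.1, hn.2]
    · nlinarith [hn.1, hn.2]

/-- The set of exceptional parameters is σ-porous; in particular it is a null set. -/
theorem result (h g : ℕ → ℝ) (hg : Tendsto g atTop atTop) :
    SigmaPorous (Exceptional h g) ∧ volume (Exceptional h g) = 0 := by
  have h1 : SigmaPorous (Exceptional h g) := MPcc0Aed.main h g hg
  exact ⟨h1, MPcc0Aed.SigmaPorous.null h1⟩

end Pool.Agent.Results.MP_cc0c1a_nt.AlmostEveryDirection
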