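import Mathlib
import Pool.Agent.Lib.MP_cc0c1a_nt.Tri3.Dop2

set_option autoImplicit false

/-!
# MP_cc0c1a_nt: at all positions outside a set of Banach density zero all words of a given length
appear, in every macroscopic time window

The proof runs Boshernitzan's argument for Furstenberg's theorem inside the limit sets of
`4^l ξ (3/2)^n` modulo one, for most `l`: two points of the orbit which are close at a time differ,
further back in time, by `2^s β / 3^s`, and `4^l 2^s β / 3^s` is dense for most `l` by 3-adic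
arithmetic. By the Subspace theorem and the geometry of the zero triangles of the space-time diagram
a point of the diagram at time `n`, inside the support, is at distance at least `2^(-δn)` from the
torsion points of small order; so the argument can be carried out in short time windows and at all
positions inside the support.
-/

namespace Pool.Agent.Results.MP_cc0c1a_nt.DensityOneWindows

/-- A configuration: a two-sided infinite word over the alphabet `{0,...,5}`. -/
abbrev Config : Type := ℤ → Fin 6

/-- The local rule `f(s,t) = (3 s mod 6) + ⌊3 t / 6⌋`. -/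
def localRule (s t : Fin 6) : Fin 6 :=
  ⟨(3 * s.val) % 6 + (3 * t.val) / 6, by omega⟩

/-- The automaton `F_{×3}`. -/
def Fx3 (x : Config) : Config := fun i => localRule (x i) (x (i + 1))

/-- The right shift `σ⁻¹`. -/
def rightShift (x : Config) : Config := fun i => x (i - 1)

/-- The automaton `F = F_{×3} ∘ F_{×3} ∘ σ⁻¹`. -/
def F (x : Config) : Config := Fx3 (Fx3 (rightShift x))

/-- Finite configurations: only finitely many nonzero digits. -/
def IsFin (x : Config) : Prop := {i : ℤ | x i ≠ 0}.Finite

/-- The configuration `y` shows the word `w` of length `ℓ` starting at the position `j`. -/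
def Shows {ℓ : ℕ} (y : Config) (j : ℤ) (w : Fin ℓ → Fin 6) : Prop := ∀ i : Fin ℓ, y (j + i) = w i

/-- The position `j` lies between two nonzero digits of `F^n(x)` (or is one of them). -/
def Inside (x : Config) (n : ℕ) (j : ℤ) : Prop :=
  (∃ i ≤ j, F^[n] x i ≠ 0) ∧ ∃ i, j ≤ i ∧ F^[n] x i ≠ 0

/-- For every `ℓ` and `θ > 0` there is `B₀` such that for every finite configuration `x` other than
the all-zero one: (1) in every block of `B ≥ B₀` consecutive positions, at least `(1 - θ) B`
positions `j` have the property that every word of length `ℓ` is shown by `F^n(x)` at `j` for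
infinitely many `n`; (2) for every `ε > 0` there is `N₀` such that for all `N ≥ N₀`, all `B ≥ B₀` and
all blocks `j₀, ..., j₀ + B` inside the support of `F^N(x)`, at least `(1 - θ) B` of the positions
`j₀ ≤ j < j₀ + B` have the property that every word of length `ℓ` is shown by `F^n(x)` at `j` for
some `n` with `N ≤ n ≤ (1 + ε) N`. -/
theorem result (ℓ : ℕ) (θ : ℝ) (hθ : 0 < θ) : ∃ B₀ : ℕ, ∀ x : Config, IsFin x → x ≠ 0 →
    (∀ B : ℕ, B₀ ≤ B → ∀ j₀ : ℤ, (1 - θ) * B ≤
      (({j : ℤ | j₀ ≤ j ∧ j < j₀ + B ∧
        ∀ w : Fin ℓ → Fin 6, {n : ℕ | Shows (F^[n] x) j w}.Infinite}.ncard : ℕ) : ℝ)) ∧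
    (∀ ε : ℝ, 0 < ε → ∃ N₀ : ℕ, ∀ N : ℕ, N₀ ≤ N → ∀ B : ℕ, B₀ ≤ B → ∀ j₀ : ℤ,
      Inside x N j₀ → Inside x N (j₀ + B) → (1 - θ) * B ≤
      (({j : ℤ | j₀ ≤ j ∧ j < j₀ + B ∧ ∀ w : Fin ℓ → Fin 6,
        ∃ n : ℕ, N ≤ n ∧ (n : ℝ) ≤ (1 + ε) * N ∧ Shows (F^[n] x) j w}.ncard : ℕ) : ℝ)) :=
  MPcc0Tri3.final_dop ℓ θ hθ

end Pool.Agent.Results.MP_cc0c1a_nt.DensityOneWindows
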