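import Mathlib

set_option autoImplicit false

namespace Pool.Agent.Results.MP_cc0c1a_nt.Dichotomy

/-- A configuration: a two-sided infinite word over the alphabet `{0,...,5}`, with the product
topology of the discrete topology. -/
abbrev Config : Type := ℤ → Fin 6

/-- The local rule `f(s,t) = (3 s mod 6) + ⌊3 t / 6⌋`. -/
def localRule (s t : Fin 6) : Fin 6 :=
  ⟨(3 * s.val) % 6 + (3 * t.val) / 6, by omega⟩

/-- The automaton `F_{×3}`. -/
def Fx3 (x : Config) : Config := fun i => localRule (x i) (x (i + 1))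

/-- The right shift `σ⁻¹`. -/
def rightShift (x : Config) : Config := fun i => x (i - 1)

/-- The automaton `F = F_{×3} ∘ F_{×3} ∘ σ⁻¹`. -/
def F (x : Config) : Config := Fx3 (Fx3 (rightShift x))

/-- Finite configurations: only finitely many nonzero digits. -/
def IsFin (x : Config) : Prop := {i : ℤ | x i ≠ 0}.Finite

/-- The forward orbit of a configuration. -/
def orbit (x : Config) : Set Config := Set.range (fun n : ℕ => F^[n] x)

/-- The number of different words shown at the positions `-L, ..., L` by the configurations of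
the forward orbit of `x`. -/
noncomputable def complexity (x : Config) (L : ℕ) : ℕ :=
  Set.ncard (Set.range (fun n : ℕ => fun i : Set.Icc (-(L : ℤ)) L => F^[n] x i))

/-! ### The configuration of digits of a real number -/

/-- Digit configuration of a nonnegative real number. -/
noncomputable def dig (z : ℝ) : Config :=
  fun i => ⟨⌊(6 : ℝ) ^ i * z⌋₊ % 6, Nat.mod_lt _ (by norm_num)⟩

lemma rightShift_dig (z : ℝ) : rightShift (dig z) = dig (z / 6) := by
  funext i
  unfold rightShift dig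
  apply Fin.ext
  simp only
  congr 2
  rw [zpow_sub_one₀ (by norm_num : (6:ℝ) ≠ 0)]
  ring

lemma Fx3_dig (z : ℝ) : Fx3 (dig z) = dig (3 * z) := by
  funext i
  unfold Fx3 dig localRule
  apply Fin.ext
  simp only
  set u := ⌊(6 : ℝ) ^ (i + 1) * z⌋₊ with hu
  have h1 : ⌊(6 : ℝ) ^ i * z⌋₊ = u / 6 := by
    rw [hu, ← Nat.floor_div_natCast]
    congr 1
    rw [zpow_add_one₀ (by norm_num : (6:ℝ) ≠ 0)]
    push_cast
    ring
  have h2 : ⌊(6 : ℝ) ^ i * (3 * z)⌋₊ = u / 2 := by
    rw [hu, ← Nat.floor_div_natCast]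
    congr 1
    rw [zpow_add_one₀ (by norm_num : (6:ℝ) ≠ 0)]
    push_cast
    ring
  rw [h1, h2]
  omega

lemma F_dig (z : ℝ) : F (dig z) = dig (z * (3 / 2)) := by
  unfold F
  rw [rightShift_dig, Fx3_dig, Fx3_dig]
  congr 1
  ring

lemma iter_F_dig (z : ℝ) (n : ℕ) : F^[n] (dig z) = dig (z * (3 / 2) ^ n) := by
  induction n with
  | zero => simp
  | succ n ih =>
    rw [Function.iterate_succ_apply', ih, F_dig]
    congr 1
    ring

/-- Every word is the word of base-6 digits of a natural number. -/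
lemma exists_digits (a : ℕ → Fin 6) (n : ℕ) :
    ∃ N : ℕ, N < 6 ^ n ∧ ∀ k, k < n → N / 6 ^ k % 6 = (a k : ℕ) := by
  induction n with
  | zero => exact ⟨0, by simp, by intro k hk; omega⟩
  | succ n ih =>
    obtain ⟨N, hN, h⟩ := ih
    refine ⟨N + 6 ^ n * (a n : ℕ), ?_, ?_⟩
    · have := (a n).isLt
      calc N + 6 ^ n * (a n : ℕ) < 6 ^ n + 6 ^ n * (a n : ℕ) := by omega
        _ = 6 ^ n * ((a n : ℕ) + 1) := by ring
        _ ≤ 6 ^ n * 6 := Nat.mul_le_mul_left _ (by omega)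
        _ = 6 ^ (n + 1) := by ring
    · intro k hk
      rcases Nat.lt_succ_iff_lt_or_eq.mp hk with hk' | rfl
      · rw [← h k hk']
        have : 6 ^ n = 6 ^ k * (6 * 6 ^ (n - k - 1)) := by
          rw [← pow_succ', ← pow_add]
          congr 1
          omega
        rw [this, mul_assoc, Nat.add_mul_div_left _ _ (by positivity), mul_assoc,
          Nat.add_mul_mod_self_left]
      · rw [Nat.add_mul_div_left _ _ (by positivity), Nat.div_eq_of_lt hN, zero_add,
          Nat.mod_eq_of_lt (a k).isLt]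

lemma floor_zpow_neg (N : ℕ) (k : ℕ) : ⌊(6 : ℝ) ^ (-(k : ℤ)) * N⌋₊ = N / 6 ^ k := by
  have : (6 : ℝ) ^ (-(k : ℤ)) * N = (N : ℝ) / ((6 ^ k : ℕ) : ℝ) := by
    rw [zpow_neg, zpow_natCast]
    push_cast
    field_simp
  rw [this, Nat.floor_div_natCast, Nat.floor_natCast]

/-- Every finite configuration is the digit configuration of some `N / 6 ^ r`. -/
lemma fin_eq_dig {x : Config} (hx : IsFin x) : ∃ N r : ℕ, x = dig ((N : ℝ) / 6 ^ r) := by
  obtain ⟨B, hB⟩ : ∃ B : ℕ, ∀ i : ℤ, x i ≠ 0 → |i| ≤ B := by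
    obtain ⟨b, hb⟩ := (hx.image (fun i : ℤ => |i|)).bddAbove
    refine ⟨b.toNat, fun i hi => ?_⟩
    have : |i| ≤ b := hb ⟨i, hi, rfl⟩
    have h2 := Int.self_le_toNat b
    omega
  obtain ⟨N, hN, h⟩ := exists_digits (fun k => x ((B : ℤ) - k)) (2 * B + 1)
  refine ⟨N, B, ?_⟩
  funext i
  apply Fin.ext
  unfold dig
  simp only
  have hre : (6 : ℝ) ^ i * ((N : ℝ) / 6 ^ B) = (6 : ℝ) ^ (i - B) * N := by
    rw [zpow_sub₀ (by norm_num : (6:ℝ) ≠ 0), zpow_natCast]
    ring
  rw [hre]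
  rcases le_or_gt i B with hi | hi
  · obtain ⟨k, hk⟩ : ∃ k : ℕ, (B : ℤ) - i = k := ⟨((B : ℤ) - i).toNat, by omega⟩
    have hi' : i - B = -(k : ℤ) := by omega
    rw [hi', floor_zpow_neg]
    rcases lt_or_ge k (2 * B + 1) with hk2 | hk2
    · rw [h k hk2]
      congr 2
      omega
    · have h0 : x i = 0 := by
        by_contra hne
        have := hB i hne
        rw [abs_le] at this
        omega
      rw [h0, Nat.div_eq_of_lt (lt_of_lt_of_le hN (Nat.pow_le_pow_right (by norm_num) hk2))]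
      rfl
  · have h0 : x i = 0 := by
      by_contra hne
      have := hB i hne
      rw [abs_le] at this
      omega
    obtain ⟨k, hk⟩ : ∃ k : ℕ, i - (B : ℤ) = (k : ℤ) + 1 := ⟨(i - (B : ℤ) - 1).toNat, by omega⟩
    rw [hk, h0]
    have : (6 : ℝ) ^ ((k : ℤ) + 1) * N = ((6 * (6 ^ k * N) : ℕ) : ℝ) := by
      rw [zpow_add_one₀ (by norm_num : (6:ℝ) ≠ 0), zpow_natCast]
      push_cast
      ring
    rw [this, Nat.floor_natCast, Nat.mul_mod_right]
    rfl


/-! ### The counting lemma -/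

/-- Divisor attached to the time `n` (with half-width `M`). -/
def D (M n : ℕ) : ℕ := 2 ^ (M + n) * 3 ^ (M - n)

lemma D_pos (M n : ℕ) : 0 < D M n := by unfold D; positivity

/-- Digits window seen at time `n`. -/
def E (M b n Z : ℕ) : ℕ := (Z / D M n) % 6 ^ b

lemma E_periodic {M b n j B : ℕ} (hnj : n ≤ j) (hB : M + b ≤ B) (Z t : ℕ) :
    E M b n (Z + 2 ^ (M + j + b) * 3 ^ B * t) = E M b n Z := by
  unfold E
  have h : 2 ^ (M + j + b) * 3 ^ B * t
      = D M n * (6 ^ b * (2 ^ (j - n) * 3 ^ (B - (M - n) - b) * t)) := by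
    unfold D
    have h6 : (6 : ℕ) ^ b = 2 ^ b * 3 ^ b := by rw [← mul_pow]; norm_num
    rw [h6]
    have e1 : M + j + b = (M + n) + b + (j - n) := by omega
    have e2 : B = (M - n) + b + (B - (M - n) - b) := by omega
    rw [e1]
    nth_rewrite 1 [e2]
    rw [pow_add, pow_add, pow_add, pow_add]
    ring
  rw [h, Nat.add_mul_div_left _ _ (D_pos M n), Nat.add_mul_mod_self_left]

lemma E_hit {M b n j B W : ℕ} (hn : n = j + 3 * b) (hnM : n ≤ M) (hB : B = 2 * M + b)
    (hW : W < 6 ^ b) (Z : ℕ) :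
    ∃ t, t < 2 ^ (3 * b) ∧ E M b n (Z + 2 ^ (M + j + b) * 3 ^ B * t) = W := by
  set R : ℕ := 2 ^ (M + j + b) * 3 ^ (M - n + b) with hR
  have hRpos : 0 < R := by positivity
  have hD3 : D M n * 3 ^ b = R * 4 ^ b := by
    rw [hR]
    unfold D
    have e1 : M + n = M + j + b + 2 * b := by omega
    have h4 : (4 : ℕ) ^ b = 2 ^ (2 * b) := by rw [pow_mul]; norm_num
    rw [e1, h4, pow_add 2 (M + j + b) (2 * b), pow_add 3 (M - n) b]
    ring
  have hRD : R ≤ D M n := by
    have h34 : 3 ^ b ≤ 4 ^ b := Nat.pow_le_pow_left (by norm_num) b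
    have hp : 0 < 3 ^ b := by positivity
    have : R * 3 ^ b ≤ D M n * 3 ^ b := by
      rw [hD3]
      exact Nat.mul_le_mul_left _ h34
    exact Nat.le_of_mul_le_mul_right this hp
  have hmod : D M n * 6 ^ b = R * 2 ^ (3 * b) := by
    rw [hR]
    unfold D
    have h6 : (6 : ℕ) ^ b = 2 ^ b * 3 ^ b := by rw [← mul_pow]; norm_num
    have e1 : M + n = M + j + 3 * b := by omega
    rw [h6, e1, pow_add 2 (M + j) (3 * b), pow_add 2 (M + j) b, pow_add 3 (M - n) b]
    ring
  have hQ : 2 ^ (M + j + b) * 3 ^ B = R * 3 ^ (M + n) := by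
    rw [hR, hB]
    have e2 : 2 * M + b = (M - n + b) + (M + n) := by omega
    rw [e2, pow_add 3 (M - n + b) (M + n)]
    ring
  -- the target
  set c : ℕ := (Z + W * D M n * (R - 1)) % R with hc
  have hcR : c < R := Nat.mod_lt _ hRpos
  set v : ℕ := W * D M n + c with hv
  have hvZ : v ≡ Z [MOD R] := by
    have h1 : v ≡ W * D M n + (Z + W * D M n * (R - 1)) [MOD R] := by
      rw [hv, hc]
      exact Nat.ModEq.add_left _ (Nat.mod_modEq _ _)
    have h2 : W * D M n + (Z + W * D M n * (R - 1)) = Z + R * (W * D M n) := by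
      obtain ⟨R', hR'⟩ : ∃ R', R = R' + 1 := ⟨R - 1, by omega⟩
      rw [hR']
      simp only [Nat.add_sub_cancel]
      ring
    rw [h2] at h1
    exact h1.trans (by simp [Nat.ModEq])
  -- integer quotient
  obtain ⟨s, hs⟩ : (R : ℤ) ∣ (v : ℤ) - Z := (Nat.modEq_iff_dvd.mp hvZ.symm)
  -- inverse of 3^(M+n) modulo 2^(3b)
  have hcop : IsCoprime ((3 : ℤ) ^ (M + n)) ((2 : ℤ) ^ (3 * b)) := by
    apply IsCoprime.pow
    norm_num
  obtain ⟨u, w, huw⟩ := hcop
  set t : ℕ := ((s * u) % (2 : ℤ) ^ (3 * b)).toNat with ht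
  have h2pos : (0 : ℤ) < 2 ^ (3 * b) := by positivity
  have htnn : (0 : ℤ) ≤ (s * u) % (2 : ℤ) ^ (3 * b) := Int.emod_nonneg _ h2pos.ne'
  have htlt : (s * u) % (2 : ℤ) ^ (3 * b) < (2 : ℤ) ^ (3 * b) := Int.emod_lt_of_pos _ h2pos
  have htc : (t : ℤ) = (s * u) % (2 : ℤ) ^ (3 * b) := by
    rw [ht]; exact Int.toNat_of_nonneg htnn
  refine ⟨t, ?_, ?_⟩
  · have : (t : ℤ) < ((2 ^ (3 * b) : ℕ) : ℤ) := by rw [htc]; push_cast; exact htlt
    exact_mod_cast this
  · -- congruence modulo R * 2^(3b)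
    have hcong : Z + 2 ^ (M + j + b) * 3 ^ B * t ≡ v [MOD (R * 2 ^ (3 * b))] := by
      rw [Nat.modEq_iff_dvd]
      rw [hQ]
      push_cast
      obtain ⟨q, hq⟩ : (2 : ℤ) ^ (3 * b) ∣ s * u - t := by
        rw [htc]
        exact Int.dvd_self_sub_emod
      have hv' : (v : ℤ) = Z + R * s := by linarith
      have : (v : ℤ) - (Z + R * 3 ^ (M + n) * t)
          = R * 2 ^ (3 * b) * (s * w + 3 ^ (M + n) * q) := by
        rw [hv']
        have h1 : (t : ℤ) = s * u - 2 ^ (3 * b) * q := by linarith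
        rw [h1]
        have h2 : s = s * (u * 3 ^ (M + n) + w * 2 ^ (3 * b)) := by rw [huw]; ring
        have h3 : (R : ℤ) * s = R * (s * (u * 3 ^ (M + n) + w * 2 ^ (3 * b))) := by rw [← h2]
        linear_combination h3
      exact ⟨_, this⟩
    unfold E
    rw [← Nat.mod_mul_right_div_self, hmod, hcong, ← hmod, Nat.mod_mul_right_div_self]
    have : v / D M n = W := by
      rw [hv, Nat.div_eq_iff (D_pos M n)]
      constructor
      · omega
      · omega
    rw [this, Nat.mod_eq_of_lt hW]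

/-- Counting lifts, one stage. -/
lemma tree_step {Q m : ℕ} (S T : Finset ℕ) (hit : ℕ → ℕ) (hhit : ∀ z ∈ S, hit z < m)
    (hT : ∀ Z ∈ T, Z / Q < m ∧ Z % Q ∈ S ∧ Z / Q ≠ hit (Z % Q)) :
    T.card ≤ S.card * (m - 1) := by
  classical
  have hinj : T.card ≤ (S.sigma fun z => (Finset.range m).erase (hit z)).card := by
    apply Finset.card_le_card_of_injOn (fun Z => (⟨Z % Q, Z / Q⟩ : Σ _ : ℕ, ℕ))
    · intro Z hZ
      obtain ⟨h1, h2, h3⟩ := hT Z hZ
      simp only [Finset.coe_sigma, Set.mem_sigma_iff, Finset.mem_coe, Finset.mem_erase,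
        Finset.mem_range]
      exact ⟨h2, h3, h1⟩
    · intro Z1 _ Z2 _ h
      simp only [Sigma.mk.injEq, heq_eq_eq] at h
      rw [← Nat.div_add_mod Z1 Q, ← Nat.div_add_mod Z2 Q, h.1, h.2]
  refine hinj.trans ?_
  rw [Finset.card_sigma]
  apply le_of_eq
  calc ∑ a ∈ S, ((Finset.range m).erase (hit a)).card
      = ∑ a ∈ S, (m - 1) := by
        apply Finset.sum_congr rfl
        intro z hz
        rw [Finset.card_erase_of_mem (Finset.mem_range.mpr (hhit z hz)), Finset.card_range]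
    _ = S.card * (m - 1) := by rw [Finset.sum_const, smul_eq_mul]

/-- `Z` avoids `W` up to stage `i`. -/
def Avoids (M b W i Z : ℕ) : Prop := ∀ i', 1 ≤ i' → i' ≤ i → E M b (i' * (3 * b)) Z ≠ W

open Classical in
/-- The residues that avoid `W` up to stage `i`. -/
noncomputable def avoid (M b W i : ℕ) : Finset ℕ :=
  (Finset.range (2 ^ (M + i * (3 * b) + b) * 3 ^ (2 * M + b))).filter (Avoids M b W i)

lemma mem_avoid {M b W i Z : ℕ} : Z ∈ avoid M b W i ↔
    Z < 2 ^ (M + i * (3 * b) + b) * 3 ^ (2 * M + b) ∧ Avoids M b W i Z := by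
  classical
  unfold avoid
  rw [Finset.mem_filter, Finset.mem_range]

lemma avoid_card {M b W : ℕ} (hW : W < 6 ^ b) :
    ∀ i : ℕ, i * (3 * b) ≤ M →
      (avoid M b W i).card ≤ (2 ^ (3 * b) - 1) ^ i * (2 ^ (M + b) * 3 ^ (2 * M + b)) := by
  intro i
  induction i with
  | zero =>
    intro _
    have h : avoid M b W 0 ⊆ Finset.range (2 ^ (M + b) * 3 ^ (2 * M + b)) := by
      intro Z hZ
      rw [mem_avoid] at hZ
      rw [Finset.mem_range]
      simpa using hZ.1
    refine (Finset.card_le_card h).trans ?_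
    simp
  | succ i ih =>
    intro hi
    have hi' : i * (3 * b) ≤ M := le_trans (Nat.mul_le_mul_right _ (Nat.le_succ i)) hi
    have ih' := ih hi'
    have hn : (i + 1) * (3 * b) = i * (3 * b) + 3 * b := by ring
    choose hit hhit1 hhit2 using
      (fun Z => E_hit (M := M) (b := b) (n := (i + 1) * (3 * b)) (j := i * (3 * b))
        (B := 2 * M + b) (W := W) hn hi rfl hW Z)
    have hstep : (avoid M b W (i + 1)).card ≤ (avoid M b W i).card * (2 ^ (3 * b) - 1) := by
      apply tree_step (Q := 2 ^ (M + i * (3 * b) + b) * 3 ^ (2 * M + b)) _ _ hit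
        (fun z _ => hhit1 z)
      intro Z hZ
      rw [mem_avoid] at hZ
      obtain ⟨hZ1, hZ2⟩ := hZ
      set Q := 2 ^ (M + i * (3 * b) + b) * 3 ^ (2 * M + b) with hQ
      have hQpos : 0 < Q := by positivity
      have hZdecomp : Z = Z % Q + Q * (Z / Q) := (Nat.mod_add_div Z Q).symm
      refine ⟨?_, ?_, ?_⟩
      · rw [Nat.div_lt_iff_lt_mul hQpos]
        refine lt_of_lt_of_eq hZ1 ?_
        rw [hQ, hn]
        rw [show M + (i * (3 * b) + 3 * b) + b = (M + i * (3 * b) + b) + 3 * b by ring, pow_add 2 _ (3 * b)]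
        ring
      · rw [mem_avoid]
        refine ⟨Nat.mod_lt _ hQpos, ?_⟩
        intro i' h1 h2
        have h3 := hZ2 i' h1 (by omega)
        rw [hZdecomp, hQ, E_periodic (Nat.mul_le_mul_right _ h2) (by omega)] at h3
        exact h3
      · intro heq
        have h3 := hZ2 (i + 1) (by omega) le_rfl
        apply h3
        rw [hZdecomp, heq]
        exact hhit2 _
    calc (avoid M b W (i + 1)).card ≤ (avoid M b W i).card * (2 ^ (3 * b) - 1) := hstep
      _ ≤ ((2 ^ (3 * b) - 1) ^ i * (2 ^ (M + b) * 3 ^ (2 * M + b))) * (2 ^ (3 * b) - 1) :=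
        Nat.mul_le_mul_right _ ih'
      _ = (2 ^ (3 * b) - 1) ^ (i + 1) * (2 ^ (M + b) * 3 ^ (2 * M + b)) := by ring

/-- Codes modulo `6 ^ (2 M + b)` avoiding `W` up to stage `k`. -/
lemma codes_card {M b W k : ℕ} (hW : W < 6 ^ b) (hk : k * (3 * b) ≤ M) (T : Finset ℕ)
    (hT1 : ∀ Z ∈ T, Z < 6 ^ (2 * M + b))
    (hT2 : ∀ Z ∈ T, ∀ n, n ≤ M → E M b n Z ≠ W) :
    T.card * (2 ^ (3 * b)) ^ k ≤ (2 ^ (3 * b) - 1) ^ k * 6 ^ (2 * M + b) := by
  classical
  set Q := 2 ^ (M + k * (3 * b) + b) * 3 ^ (2 * M + b) with hQ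
  have hQpos : 0 < Q := by positivity
  have h6 : (6 : ℕ) ^ (2 * M + b) = 2 ^ (M - k * (3 * b)) * Q := by
    rw [show (6 : ℕ) = 2 * 3 by norm_num, mul_pow, hQ, ← mul_assoc, ← pow_add]
    congr 2
    omega
  have h1 : T.card ≤ (avoid M b W k).card * 2 ^ (M - k * (3 * b)) := by
    have : T.card ≤ ((avoid M b W k) ×ˢ (Finset.range (2 ^ (M - k * (3 * b))))).card := by
      apply Finset.card_le_card_of_injOn (fun Z => (Z % Q, Z / Q))
      · intro Z hZ
        simp only [Finset.coe_product, Set.mem_prod, Finset.mem_coe, Finset.mem_range]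
        constructor
        · rw [mem_avoid]
          refine ⟨Nat.mod_lt _ hQpos, ?_⟩
          intro i' h1 h2
          have h4 : i' * (3 * b) ≤ k * (3 * b) := Nat.mul_le_mul_right _ h2
          have h3 := hT2 Z hZ (i' * (3 * b)) (le_trans h4 hk)
          rw [show Z = Z % Q + Q * (Z / Q) from (Nat.mod_add_div Z Q).symm, hQ,
            E_periodic h4 (by omega)] at h3
          exact h3
        · rw [Nat.div_lt_iff_lt_mul hQpos, ← h6]
          exact hT1 Z hZ
      · intro Z1 _ Z2 _ h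
        simp only [Prod.mk.injEq] at h
        rw [← Nat.div_add_mod Z1 Q, ← Nat.div_add_mod Z2 Q, h.1, h.2]
    rwa [Finset.card_product, Finset.card_range] at this
  have h2 := avoid_card (M := M) (b := b) (W := W) hW k hk
  calc T.card * (2 ^ (3 * b)) ^ k
      ≤ ((avoid M b W k).card * 2 ^ (M - k * (3 * b))) * (2 ^ (3 * b)) ^ k :=
        Nat.mul_le_mul_right _ h1
    _ ≤ (((2 ^ (3 * b) - 1) ^ k * (2 ^ (M + b) * 3 ^ (2 * M + b))) * 2 ^ (M - k * (3 * b)))
          * (2 ^ (3 * b)) ^ k :=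
        Nat.mul_le_mul_right _ (Nat.mul_le_mul_right _ h2)
    _ = (2 ^ (3 * b) - 1) ^ k * 6 ^ (2 * M + b) := by
        rw [h6, hQ, ← pow_mul 2 (3 * b) k]
        have : 2 ^ (M + k * (3 * b) + b) = 2 ^ (M + b) * 2 ^ (3 * b * k) := by
          rw [← pow_add]; congr 1; ring
        rw [this]
        ring


/-! ### Codes of windows -/

/-- The window of digits at positions `-L..L`, as a natural number. -/
noncomputable def code (L : ℕ) (z : ℝ) : ℕ := ⌊(6 : ℝ) ^ L * z⌋₊ % 6 ^ (2 * L + 1)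

/-- The set of codes seen along the orbit of `z`. -/
def codes (z : ℝ) (L : ℕ) : Set ℕ := Set.range fun n : ℕ => code L (z * (3 / 2) ^ n)

/-- Number of windows seen along the orbit of `z`. -/
noncomputable def P (z : ℝ) (L : ℕ) : ℕ := (codes z L).ncard

lemma code_lt (L : ℕ) (z : ℝ) : code L z < 6 ^ (2 * L + 1) := Nat.mod_lt _ (by positivity)

lemma codes_subset (z : ℝ) (L : ℕ) : codes z L ⊆ Set.Iio (6 ^ (2 * L + 1)) := by
  rintro _ ⟨n, rfl⟩
  exact code_lt _ _

lemma codes_finite (z : ℝ) (L : ℕ) : (codes z L).Finite :=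
  (Set.finite_Iio _).subset (codes_subset z L)

lemma E_code {M l n : ℕ} (hn : n ≤ M) (z : ℝ) :
    E M (2 * l + 1) n (code (M + l) z) = code l (z * (3 / 2) ^ n) := by
  unfold E code
  have hD : (6 : ℕ) ^ (2 * (M + l) + 1)
      = D M n * 6 ^ (2 * l + 1) * (2 ^ (M - n) * 3 ^ (M + n)) := by
    unfold D
    have h1 : (6 : ℕ) ^ (2 * (M + l) + 1) = 2 ^ (2 * M) * 3 ^ (2 * M) * 6 ^ (2 * l + 1) := by
      rw [← mul_pow, show (2 : ℕ) * 3 = 6 from rfl, ← pow_add]
      congr 1
      ring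
    rw [h1]
    have e1 : 2 * M = (M + n) + (M - n) := by omega
    rw [e1, pow_add 2, pow_add 3]
    ring
  rw [hD, mul_assoc (D M n), ← Nat.mod_mul_right_div_self, ← mul_assoc (D M n),
    Nat.mod_mul_right_mod, Nat.mod_mul_right_div_self]
  congr 1
  rw [← Nat.floor_div_natCast]
  congr 1
  unfold D
  push_cast
  have e2 : (6 : ℝ) ^ (M + l) = 2 ^ M * 3 ^ M * 6 ^ l := by
    rw [← mul_pow, pow_add]; norm_num
  have e3 : (3 : ℝ) ^ M = 3 ^ (M - n) * 3 ^ n := by
    rw [← pow_add]; congr 1; omega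
  rw [e2, e3, pow_add (2 : ℝ) M n, div_pow]
  field_simp

/-- Exponentially few windows if one window is never seen. -/
lemma drop {z : ℝ} {l W : ℕ} (hW : W < 6 ^ (2 * l + 1)) (h : W ∉ codes z l) {M k : ℕ}
    (hk : k * (3 * (2 * l + 1)) ≤ M) :
    P z (M + l) * (2 ^ (3 * (2 * l + 1))) ^ k
      ≤ (2 ^ (3 * (2 * l + 1)) - 1) ^ k * 6 ^ (2 * (M + l) + 1) := by
  unfold P
  rw [Set.ncard_eq_toFinset_card _ (codes_finite z (M + l))]
  have e : 2 * (M + l) + 1 = 2 * M + (2 * l + 1) := by ring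
  rw [e]
  apply codes_card hW hk
  · intro Z hZ
    rw [Set.Finite.mem_toFinset] at hZ
    have := codes_subset _ _ hZ
    rw [← e]
    exact this
  · intro Z hZ n hn
    rw [Set.Finite.mem_toFinset] at hZ
    obtain ⟨N, rfl⟩ := hZ
    simp only
    rw [E_code hn]
    intro heq
    apply h
    refine ⟨N + n, ?_⟩
    simp only
    rw [← heq, pow_add, mul_assoc]

lemma cmp1 {z : ℝ} (hz : 0 ≤ z) (m L c : ℕ) (hm : m ≤ 6 ^ c) :
    P (m * z) L ≤ 2 * P z (L + c) := by
  unfold P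
  set K := 6 ^ (2 * L + 1) with hK
  have hsub : codes (m * z) L ⊆ (fun u => (m * u / 6 ^ c) % K) '' (codes z (L + c)) ∪
      (fun u => (m * u / 6 ^ c + 1) % K) '' (codes z (L + c)) := by
    rintro _ ⟨n, rfl⟩
    set zn : ℝ := z * (3 / 2) ^ n with hzn
    have hzn0 : 0 ≤ zn := by positivity
    set u : ℕ := ⌊(6 : ℝ) ^ (L + c) * zn⌋₊ with hu
    set v : ℕ := ⌊(6 : ℝ) ^ L * (m * zn)⌋₊ with hv
    have hcode : code L (m * z * (3 / 2) ^ n) = v % K := by
      unfold code
      rw [hv, mul_assoc (m : ℝ) z]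
    have hcode2 : code (L + c) zn = u % 6 ^ (2 * (L + c) + 1) := rfl
    have hu1 : (u : ℝ) ≤ (6 : ℝ) ^ (L + c) * zn := Nat.floor_le (by positivity)
    have hu2 : (6 : ℝ) ^ (L + c) * zn < u + 1 := Nat.lt_floor_add_one _
    have h6c : (0 : ℝ) < 6 ^ c := by positivity
    have hval : (6 : ℝ) ^ L * (m * zn) = m * ((6 : ℝ) ^ (L + c) * zn) / 6 ^ c := by
      rw [pow_add]; field_simp
    have hv1 : m * u / 6 ^ c ≤ v := by
      rw [hv]
      apply Nat.le_floor
      rw [hval, le_div_iff₀ h6c]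
      have h1 : ((m * u / 6 ^ c * 6 ^ c : ℕ) : ℝ) ≤ ((m * u : ℕ) : ℝ) := by
        exact_mod_cast Nat.div_mul_le_self _ _
      push_cast at h1
      refine h1.trans ?_
      exact mul_le_mul_of_nonneg_left hu1 (by positivity)
    have hv2 : v < m * u / 6 ^ c + 2 := by
      have h1 : m * u < 6 ^ c * (m * u / 6 ^ c + 1) := by
        have := Nat.lt_mul_div_succ (m * u) (show 0 < 6 ^ c by positivity)
        exact this
      have h1' : ((m * u : ℕ) : ℝ) + 1 ≤ ((6 ^ c * (m * u / 6 ^ c + 1) : ℕ) : ℝ) := by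
        exact_mod_cast h1
      push_cast at h1'
      have h2 : (6 : ℝ) ^ L * (m * zn) < ((m * u / 6 ^ c + 2 : ℕ) : ℝ) := by
        rw [hval, div_lt_iff₀ h6c]
        have hm' : (m : ℝ) ≤ 6 ^ c := by exact_mod_cast hm
        have h3 : (m : ℝ) * ((6 : ℝ) ^ (L + c) * zn) ≤ m * (u + 1) :=
          mul_le_mul_of_nonneg_left hu2.le (by positivity)
        push_cast
        have h4 : (m : ℝ) * u < 6 ^ c * (((m * u / 6 ^ c : ℕ) : ℝ) + 1) := by linarith
        nlinarith
      have := (Nat.floor_lt (by positivity)).mpr h2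
      exact this
    have hmod : ∀ e : ℕ, (m * u / 6 ^ c + e) % K = (m * (u % 6 ^ (2 * (L + c) + 1)) / 6 ^ c + e) % K := by
      intro e
      have h1 : m * u = m * (u % 6 ^ (2 * (L + c) + 1))
          + 6 ^ c * (K * (6 ^ c * (m * (u / 6 ^ (2 * (L + c) + 1))))) := by
        conv_lhs => rw [← Nat.mod_add_div u (6 ^ (2 * (L + c) + 1))]
        have e1 : 6 ^ (2 * (L + c) + 1) = 6 ^ c * (6 ^ (2 * L + 1) * 6 ^ c) := by
          rw [← pow_add, ← pow_add]; congr 1; ring
        rw [hK]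
        nth_rewrite 2 [e1]
        ring
      rw [h1, Nat.add_mul_div_left _ _ (by positivity), add_right_comm, Nat.add_mul_mod_self_left]
    have hv3 : v = m * u / 6 ^ c ∨ v = m * u / 6 ^ c + 1 := by omega
    rcases hv3 with hv3 | hv3
    · left
      refine ⟨code (L + c) zn, ⟨n, rfl⟩, ?_⟩
      simp only
      rw [hcode, hv3, hcode2]
      have := hmod 0
      simp only [add_zero] at this
      exact this.symm
    · right
      refine ⟨code (L + c) zn, ⟨n, rfl⟩, ?_⟩
      simp only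
      rw [hcode, hv3, hcode2]
      exact (hmod 1).symm
  have hfin := codes_finite z (L + c)
  calc (codes (m * z) L).ncard
      ≤ ((fun u => (m * u / 6 ^ c) % K) '' (codes z (L + c)) ∪
      (fun u => (m * u / 6 ^ c + 1) % K) '' (codes z (L + c))).ncard :=
        Set.ncard_le_ncard hsub ((hfin.image _).union (hfin.image _))
    _ ≤ _ := Set.ncard_union_le _ _
    _ ≤ (codes z (L + c)).ncard + (codes z (L + c)).ncard :=
        add_le_add (Set.ncard_image_le hfin) (Set.ncard_image_le hfin)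
    _ = 2 * (codes z (L + c)).ncard := by ring

lemma cmp2 {z : ℝ} (m L : ℕ) (hm : 0 < m) : P z L ≤ m * P (m * z) L := by
  unfold P
  set K := 6 ^ (2 * L + 1) with hK
  have hsub : codes z L ⊆ (fun p : ℕ × ℕ => ((p.1 + K * p.2) / m) % K) ''
      ((codes (m * z) L) ×ˢ (Set.Iio m)) := by
    rintro _ ⟨n, rfl⟩
    set zn : ℝ := z * (3 / 2) ^ n with hzn
    set v : ℕ := ⌊(6 : ℝ) ^ L * (m * zn)⌋₊ with hv
    have hcode : code L (m * z * (3 / 2) ^ n) = v % K := by
      unfold code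
      rw [hv, mul_assoc (m : ℝ) z]
    have hu : ⌊(6 : ℝ) ^ L * zn⌋₊ = v / m := by
      rw [hv, ← Nat.floor_div_natCast]
      congr 1
      field_simp
    refine ⟨(v % K, (v / K) % m), ⟨⟨n, hcode⟩, Nat.mod_lt _ hm⟩, ?_⟩
    simp only
    have hcz : code L zn = (v / m) % K := by
      unfold code
      rw [hu]
    rw [hcz]
    have h1 : v = (v % K + K * (v / K % m)) + m * (K * (v / K / m)) := by
      conv_lhs => rw [← Nat.mod_add_div v K]
      conv_lhs => rw [← Nat.mod_add_div (v / K) m]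
      ring
    conv_rhs => rw [h1]
    rw [Nat.add_mul_div_left _ _ hm, Nat.add_mul_mod_self_left]
  have hfin := codes_finite (m * z) L
  calc (codes z L).ncard
      ≤ ((fun p : ℕ × ℕ => ((p.1 + K * p.2) / m) % K) ''
      ((codes (m * z) L) ×ˢ (Set.Iio m))).ncard :=
        Set.ncard_le_ncard hsub ((hfin.prod (Set.finite_Iio m)).image _)
    _ ≤ ((codes (m * z) L) ×ˢ (Set.Iio m)).ncard := Set.ncard_image_le (hfin.prod (Set.finite_Iio m))
    _ = (codes (m * z) L).ncard * m := by rw [Set.ncard_prod, Set.ncard_Iio_nat]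
    _ = m * (codes (m * z) L).ncard := by ring


/-! ### Near-maximal growth -/

/-- Near-maximal growth along a sequence of sizes. -/
def NF (f : ℕ → ℕ) : Prop :=
  ∀ δ : ℝ, 0 < δ → ∃ᶠ L : ℕ in Filter.atTop, (6 : ℝ) ^ ((1 - δ) * (2 * L + 1)) ≤ f L

lemma NF_trans {f g : ℕ → ℕ} (C c : ℕ) (hC : 0 < C) (hfg : ∀ L, f L ≤ C * g (L + c))
    (hf : NF f) : NF g := by
  intro δ hδ
  rw [Filter.frequently_atTop]
  intro a
  have h1 := hf (δ / 2) (by linarith)
  rw [Filter.frequently_atTop] at h1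
  set κ : ℝ := Real.logb 6 C with hκ
  have hCκ : (6 : ℝ) ^ κ = C := Real.rpow_logb (by norm_num) (by norm_num) (by exact_mod_cast hC)
  obtain ⟨L0, hL0⟩ := exists_nat_ge ((2 * c + κ) / δ)
  obtain ⟨L, hL, hL2⟩ := h1 (max a L0)
  refine ⟨L + c, by omega, ?_⟩
  have h2 : (f L : ℝ) ≤ C * g (L + c) := by exact_mod_cast hfg L
  have h3 : (6 : ℝ) ^ ((1 - δ / 2) * (2 * L + 1)) ≤ 6 ^ κ * g (L + c) := by
    rw [hCκ]; exact hL2.trans h2
  have h4 : (6 : ℝ) ^ ((1 - δ) * (2 * ((L + c : ℕ) : ℝ) + 1) + κ) ≤ (6 : ℝ) ^ ((1 - δ / 2) * (2 * L + 1)) := by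
    apply Real.rpow_le_rpow_of_exponent_le (by norm_num)
    have h5 : (L0 : ℝ) ≤ L := by exact_mod_cast (le_trans (le_max_right _ _) hL)
    have h6 : (2 * c + κ) / δ ≤ L := hL0.trans h5
    rw [div_le_iff₀ hδ] at h6
    push_cast
    have hc0 : (0 : ℝ) ≤ c := Nat.cast_nonneg _
    nlinarith
  have h7 := h4.trans h3
  rw [Real.rpow_add (by norm_num), mul_comm] at h7
  exact le_of_mul_le_mul_left h7 (by positivity)

lemma NF_full {z : ℝ} (hNF : NF (P z)) (l W : ℕ) (hW : W < 6 ^ (2 * l + 1)) : W ∈ codes z l := by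
  by_contra hnot
  set g : ℕ := 3 * (2 * l + 1) with hg
  have hgpos : 0 < g := by omega
  have h2g : (1 : ℕ) < 2 ^ g := Nat.one_lt_two_pow hgpos.ne'
  set q : ℝ := ((2 : ℝ) ^ g - 1) / 2 ^ g with hq
  have h2gR : (1 : ℝ) < 2 ^ g := by exact_mod_cast h2g
  have hq0 : 0 < q := by
    rw [hq]; apply div_pos <;> linarith
  have hq1 : q < 1 := by
    rw [hq, div_lt_one (by linarith)]; linarith
  set κ : ℝ := - Real.logb 6 q with hκ
  have hκ0 : 0 < κ := by
    rw [hκ, neg_pos]
    exact Real.logb_neg (by norm_num) hq0 hq1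
  have hqκ : q = (6 : ℝ) ^ (-κ) := by
    rw [hκ, neg_neg, Real.rpow_logb (by norm_num) (by norm_num) hq0]
  have h1 := hNF (κ / (4 * g)) (by positivity)
  rw [Filter.frequently_atTop] at h1
  obtain ⟨L, hL, hL2⟩ := h1 (4 * l + 4 * g + 2)
  obtain ⟨M, rfl⟩ : ∃ M, L = M + l := ⟨L - l, by omega⟩
  set k := M / g with hk
  have hkM : k * g ≤ M := Nat.div_mul_le_self _ _
  have hkM2 : M < g * (k + 1) := Nat.lt_mul_div_succ M hgpos
  have h2 := drop hW hnot (M := M) (k := k) hkM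
  rw [← hg] at h2
  have h3 : (P z (M + l) : ℝ) ≤ (6 : ℝ) ^ (2 * (M + l) + 1) * q ^ k := by
    have h4 : ((P z (M + l) * (2 ^ g) ^ k : ℕ) : ℝ) ≤ (((2 ^ g - 1) ^ k * 6 ^ (2 * (M + l) + 1) : ℕ) : ℝ) := by
      exact_mod_cast h2
    rw [Nat.cast_mul, Nat.cast_mul, Nat.cast_pow, Nat.cast_pow, Nat.cast_pow, Nat.cast_pow,
      Nat.cast_sub h2g.le] at h4
    push_cast at h4
    rw [hq, div_pow]
    rw [← le_div_iff₀ (by positivity)] at h4
    calc (P z (M + l) : ℝ) ≤ _ := h4
      _ = _ := by ring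
  have h5 : (6 : ℝ) ^ (2 * (M + l) + 1) * q ^ k
      = (6 : ℝ) ^ ((2 * ((M + l : ℕ) : ℝ) + 1) + (-κ) * k) := by
    rw [hqκ, ← Real.rpow_natCast ((6 : ℝ) ^ (-κ)) k, ← Real.rpow_mul (by norm_num), Real.rpow_add (by norm_num)]
    congr 1
    rw [← Real.rpow_natCast]
    congr 1
    push_cast
    ring
  have h6 := hL2.trans (h3.trans_eq h5)
  rw [Real.rpow_le_rpow_left_iff (by norm_num)] at h6
  have hMr : (M : ℝ) < g * (k + 1) := by exact_mod_cast hkM2
  have hLr : (4 * l + 4 * g + 2 : ℝ) ≤ M + l := by exact_mod_cast hL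
  have hgr : (0 : ℝ) < g := by exact_mod_cast hgpos
  have hkr : (M : ℝ) / g - 1 < k := by
    rw [sub_lt_iff_lt_add, div_lt_iff₀ hgr]; linarith
  have h7 : κ * k ≤ κ / (4 * g) * (2 * ((M + l : ℕ) : ℝ) + 1) := by
    linarith
  push_cast at h7
  have h8 : κ * ((M : ℝ) / g - 1) < κ / (4 * g) * (2 * (M + l) + 1) := by
    refine lt_of_lt_of_le ?_ h7
    exact mul_lt_mul_of_pos_left hkr hκ0
  have h9 : κ * ((M : ℝ) / g - 1) = κ / (4 * g) * (4 * M - 4 * g) := by
    field_simp
  rw [h9] at h8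
  have h10 := lt_of_mul_lt_mul_left h8 (by positivity)
  linarith


/-! ### From codes to configurations and fractional parts -/

lemma dig_code {L k : ℕ} {i : ℤ} (hk : (k : ℤ) = L - i) (hk2 : k ≤ 2 * L) (z : ℝ) :
    (dig z i : ℕ) = code L z / 6 ^ k % 6 := by
  unfold dig code
  simp only
  have h1 : ⌊(6 : ℝ) ^ i * z⌋₊ = ⌊(6 : ℝ) ^ L * z⌋₊ / 6 ^ k := by
    have h2 : (6 : ℝ) ^ i * z = (6 : ℝ) ^ L * z / ((6 ^ k : ℕ) : ℝ) := by
      have hi : i = L - k := by omega
      rw [hi, zpow_sub₀ (by norm_num : (6 : ℝ) ≠ 0), zpow_natCast, zpow_natCast]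
      push_cast
      ring
    rw [h2, Nat.floor_div_natCast]
  rw [h1]
  have h3 : (6 : ℕ) ^ (2 * L + 1) = 6 ^ k * 6 * 6 ^ (2 * L - k) := by
    rw [← pow_succ, ← pow_add]
    congr 1
    omega
  rw [← Nat.mod_mul_right_div_self, ← Nat.mod_mul_right_div_self, h3, Nat.mod_mul_right_mod]

lemma complexity_le (z : ℝ) (L : ℕ) : complexity (dig z) L ≤ P z L := by
  unfold complexity P
  have hsub : (Set.range (fun n : ℕ => fun i : Set.Icc (-(L : ℤ)) L => F^[n] (dig z) i))
      ⊆ (fun u : ℕ => fun i : Set.Icc (-(L : ℤ)) L =>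
          (⟨u / 6 ^ ((L : ℤ) - i).toNat % 6, Nat.mod_lt _ (by norm_num)⟩ : Fin 6)) '' (codes z L) := by
    rintro _ ⟨n, rfl⟩
    refine ⟨code L (z * (3 / 2) ^ n), ⟨n, rfl⟩, ?_⟩
    funext i
    apply Fin.ext
    simp only
    rw [iter_F_dig]
    obtain ⟨i, hi⟩ := i
    simp only [Set.mem_Icc] at hi
    rw [dig_code (L := L) (k := ((L : ℤ) - i).toNat) (by simp only; omega) (by omega)]
  exact (Set.ncard_le_ncard hsub ((codes_finite z L).image _)).trans
    (Set.ncard_image_le (codes_finite z L))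

/-- If every window is seen then the orbit is dense. -/
lemma dense_of_codes {z : ℝ} (h : ∀ l W, W < 6 ^ (2 * l + 1) → W ∈ codes z l) :
    Dense (orbit (dig z)) := by
  rw [dense_iff_inter_open]
  intro U hU hUne
  obtain ⟨y, hy⟩ := hUne
  rw [isOpen_pi_iff] at hU
  obtain ⟨I, u, hu, hIU⟩ := hU y hy
  obtain ⟨L, hL⟩ : ∃ L : ℕ, ∀ i ∈ I, |i| ≤ L := by
    obtain ⟨b, hb⟩ := (I.image (fun i : ℤ => |i|)).bddAbove
    refine ⟨b.toNat, fun i hi => ?_⟩
    have : |i| ≤ b := hb (by simpa using ⟨i, hi, rfl⟩)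
    have h2 := Int.self_le_toNat b
    omega
  obtain ⟨W, hW, hW2⟩ := exists_digits (fun k => y ((L : ℤ) - k)) (2 * L + 1)
  obtain ⟨n, hn⟩ := h L W hW
  simp only at hn
  refine ⟨F^[n] (dig z), ?_, ⟨n, rfl⟩⟩
  apply hIU
  intro i hi
  have hiL := hL i hi
  rw [abs_le] at hiL
  have hyi : F^[n] (dig z) i = y i := by
    apply Fin.ext
    rw [iter_F_dig, dig_code (L := L) (k := ((L : ℤ) - i).toNat) (by omega) (by omega), hn,
      hW2 _ (by omega)]
    congr 2
    omega
  rw [hyi]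
  exact (hu i hi).2

/-- Density of fractional parts from codes. -/
lemma fract_dense_of_codes {z : ℝ} (hz : 0 ≤ z) (h : ∀ l W, W < 6 ^ (2 * l + 1) → W ∈ codes z l) :
    Set.Icc (0 : ℝ) 1 ⊆ closure (Set.range fun n : ℕ => Int.fract (z * (3 / 2) ^ n)) := by
  have hIco : Set.Ico (0 : ℝ) 1 ⊆ closure (Set.range fun n : ℕ => Int.fract (z * (3 / 2) ^ n)) := by
    intro t ht
    rw [Metric.mem_closure_range_iff]
    intro ε hε
    obtain ⟨l, hl⟩ := exists_pow_lt_of_lt_one hε (show (1 / 6 : ℝ) < 1 by norm_num)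
    have h6 : (0 : ℝ) < 6 ^ l := by positivity
    set W : ℕ := ⌊(6 : ℝ) ^ l * t⌋₊ with hW
    have hWle : (W : ℝ) ≤ 6 ^ l * t := Nat.floor_le (mul_nonneg h6.le ht.1)
    have hWlt : (6 : ℝ) ^ l * t < W + 1 := Nat.lt_floor_add_one _
    have hW6 : W < 6 ^ l := by
      have : (W : ℝ) < 6 ^ l := by nlinarith [ht.2]
      exact_mod_cast this
    obtain ⟨n, hn⟩ := h l W (lt_of_lt_of_le hW6 (Nat.pow_le_pow_right (by norm_num) (by omega)))
    refine ⟨n, ?_⟩
    set y : ℝ := z * (3 / 2) ^ n with hy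
    have hy0 : 0 ≤ y := by positivity
    have hcode : ⌊(6 : ℝ) ^ l * y⌋₊ % 6 ^ (2 * l + 1) = W := hn
    set U : ℕ := ⌊(6 : ℝ) ^ l * y⌋₊ with hU
    have hU1 : (U : ℝ) ≤ 6 ^ l * y := Nat.floor_le (by positivity)
    have hU2 : (6 : ℝ) ^ l * y < U + 1 := Nat.lt_floor_add_one _
    set m : ℕ := 6 ^ (l + 1) * (U / 6 ^ (2 * l + 1)) with hm
    have hUm : U = W + 6 ^ l * m := by
      have h1 := Nat.mod_add_div U (6 ^ (2 * l + 1))
      rw [hcode] at h1
      rw [← h1, hm]
      have h2 : (6 : ℕ) ^ (2 * l + 1) = 6 ^ l * 6 ^ (l + 1) := by rw [← pow_add]; congr 1; ring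
      rw [← mul_assoc, ← h2, h1]
    have hUmR : (U : ℝ) = W + 6 ^ l * m := by exact_mod_cast hUm
    have hym : (W : ℝ) / 6 ^ l ≤ y - m ∧ y - m < (W + 1) / 6 ^ l := by
      constructor
      · rw [div_le_iff₀ h6]; nlinarith
      · rw [lt_div_iff₀ h6]; nlinarith
    have hWnn : (0 : ℝ) ≤ W / 6 ^ l := by positivity
    have hW1 : ((W : ℝ) + 1) / 6 ^ l ≤ 1 := by
      rw [div_le_one h6]; exact_mod_cast hW6
    have hfr : Int.fract y = y - m := by
      rw [Int.fract_eq_iff]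
      refine ⟨by linarith, by linarith, m, by simp⟩
    rw [Real.dist_eq, hfr]
    have ht1 : (W : ℝ) / 6 ^ l ≤ t := by rw [div_le_iff₀ h6]; nlinarith
    have ht2 : t < (W + 1) / 6 ^ l := by rw [lt_div_iff₀ h6]; nlinarith
    have hsplit : ((W : ℝ) + 1) / 6 ^ l = W / 6 ^ l + (1 / 6) ^ l := by
      rw [add_div, div_pow, one_pow]
    rw [hsplit] at hym ht2
    rw [abs_lt]
    constructor <;> linarith [hym.1, hym.2]
  have := closure_mono hIco
  rwa [closure_Ico (by norm_num), closure_closure] at this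

/-- All positive rational multiples of a point with near-maximal complexity see every window. -/
lemma codes_of_multiple {z y : ℝ} {m m' : ℕ} (hy : 0 ≤ y) (hm' : 0 < m')
    (hzy : (m : ℝ) * y = m' * z) (hNF : NF (P z)) (l W : ℕ) (hW : W < 6 ^ (2 * l + 1)) :
    W ∈ codes y l := by
  obtain ⟨c, hc⟩ : ∃ c, m ≤ 6 ^ c := ⟨m, (Nat.lt_pow_self (by norm_num)).le⟩
  apply NF_full _ l W hW
  refine NF_trans (m' * 2) c (by omega) (fun L => ?_) hNF
  calc P z L ≤ m' * P (m' * z) L := cmp2 m' L hm'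
    _ = m' * P (m * y) L := by rw [hzy]
    _ ≤ m' * (2 * P y (L + c)) := Nat.mul_le_mul_left _ (cmp1 hy m L c hc)
    _ = m' * 2 * P y (L + c) := by ring

lemma fract_closure_neg {z : ℝ}
    (h : Set.Icc (0 : ℝ) 1 ⊆ closure (Set.range fun n : ℕ => Int.fract (z * (3 / 2) ^ n))) :
    Set.Icc (0 : ℝ) 1 ⊆ closure (Set.range fun n : ℕ => Int.fract (-z * (3 / 2) ^ n)) := by
  have hIoo : Set.Ioo (0 : ℝ) 1 ⊆ closure (Set.range fun n : ℕ => Int.fract (-z * (3 / 2) ^ n)) := by
    intro t ht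
    have h1 := h (show (1 - t) ∈ Set.Icc (0 : ℝ) 1 from ⟨by linarith [ht.2], by linarith [ht.1]⟩)
    rw [Metric.mem_closure_range_iff] at h1 ⊢
    intro ε hε
    obtain ⟨n, hn⟩ := h1 (min ε (1 - t)) (lt_min hε (by linarith [ht.2]))
    refine ⟨n, ?_⟩
    rw [Real.dist_eq] at hn ⊢
    have hlt1 := lt_of_lt_of_le hn (min_le_left _ _)
    have hlt2 := lt_of_lt_of_le hn (min_le_right _ _)
    rw [abs_lt] at hlt1 hlt2
    have hne : Int.fract (z * (3 / 2) ^ n) ≠ 0 := by
      intro h0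
      rw [h0] at hlt2
      linarith [hlt2.2]
    have hneg : Int.fract (-z * (3 / 2) ^ n) = 1 - Int.fract (z * (3 / 2) ^ n) := by
      rw [neg_mul]
      exact Int.fract_neg hne
    rw [hneg, abs_lt]
    constructor <;> linarith [hlt1.1, hlt1.2]
  have := closure_mono hIoo
  rwa [closure_Ioo (by norm_num), closure_closure] at this

/-- From density of fractional parts of `ξ / 6 ^ (l + 1)` to windows of `ξ`. -/
lemma code_of_fract {z : ℝ} (hz : 0 ≤ z) (l W : ℕ) (hW : W < 6 ^ (2 * l + 1))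
    (h : Set.Icc (0 : ℝ) 1 ⊆
      closure (Set.range fun n : ℕ => Int.fract (z / 6 ^ (l + 1) * (3 / 2) ^ n))) :
    W ∈ codes z l := by
  set K : ℕ := 6 ^ (2 * l + 1) with hK
  have hKpos : (0 : ℝ) < K := by rw [hK]; positivity
  have hWK : (W : ℝ) + 1 ≤ K := by exact_mod_cast hW
  have hmid : ((W : ℝ) + 1 / 2) / K ∈ Set.Icc (0 : ℝ) 1 := by
    constructor
    · positivity
    · rw [div_le_one hKpos]; linarith
  have h1 := h hmid
  rw [Metric.mem_closure_range_iff] at h1
  obtain ⟨n, hn⟩ := h1 ((1 / 2) / K) (by positivity)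
  refine ⟨n, ?_⟩
  simp only
  set y : ℝ := z * (3 / 2) ^ n with hy
  have hy0 : 0 ≤ y := by positivity
  have hyy : z / 6 ^ (l + 1) * (3 / 2) ^ n = y / 6 ^ (l + 1) := by rw [hy]; ring
  rw [hyy, Real.dist_eq, abs_lt] at hn
  set m : ℤ := ⌊y / 6 ^ (l + 1)⌋ with hm
  have hfr : Int.fract (y / 6 ^ (l + 1)) = y / 6 ^ (l + 1) - m := rfl
  have hm0 : 0 ≤ m := Int.floor_nonneg.mpr (by positivity)
  obtain ⟨m', hm'⟩ : ∃ m' : ℕ, m = m' := ⟨m.toNat, (Int.toNat_of_nonneg hm0).symm⟩
  rw [hfr, hm'] at hn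
  push_cast at hn
  have hKr : (K : ℝ) = 6 ^ l * 6 ^ (l + 1) := by
    rw [hK]; push_cast; rw [← pow_add]; congr 1; ring
  have h61 : (0 : ℝ) < 6 ^ (l + 1) := by positivity
  have h6l : (0 : ℝ) < 6 ^ l := by positivity
  have hfl : ⌊(6 : ℝ) ^ l * y⌋₊ = W + K * m' := by
    rw [Nat.floor_eq_iff (by positivity)]
    have e1 : (6 : ℝ) ^ l * y = K * (y / 6 ^ (l + 1)) := by
      rw [hKr]; field_simp
    have e2 : ((W : ℝ) + 1 / 2) / K = (1 / K) * (W + 1 / 2) := by ring
    have e3 : ((1 : ℝ) / 2) / K = (1 / K) * (1 / 2) := by ring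
    have e4 : (K : ℝ) * (1 / K) = 1 := by field_simp
    rw [e2, e3] at hn
    push_cast
    rw [e1]
    constructor
    · have := mul_lt_mul_of_pos_left hn.1 hKpos
      nlinarith [this, e4]
    · have := mul_lt_mul_of_pos_left hn.2 hKpos
      nlinarith [this, e4]
  unfold code
  rw [hfl, Nat.add_mul_mod_self_left, Nat.mod_eq_of_lt hW]

/-- If the orbit is somewhere dense, then it shows a positive proportion of all words. -/
lemma complexity_of_somewhere_dense {x : Config} (h : (interior (closure (orbit x))).Nonempty) :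
    ∃ l : ℕ, ∀ L, l ≤ L → 6 ^ (2 * L + 1) ≤ complexity x L * 6 ^ (2 * l + 1) := by
  classical
  obtain ⟨y, hy⟩ := h
  have hopen : IsOpen (interior (closure (orbit x))) := isOpen_interior
  rw [isOpen_pi_iff] at hopen
  obtain ⟨I, u, hu, hIU⟩ := hopen y hy
  obtain ⟨l, hl⟩ : ∃ l : ℕ, ∀ i ∈ I, |i| ≤ l := by
    obtain ⟨b, hb⟩ := (I.image (fun i : ℤ => |i|)).bddAbove
    refine ⟨b.toNat, fun i hi => ?_⟩
    have : |i| ≤ b := hb (by simpa using ⟨i, hi, rfl⟩)
    have h2 := Int.self_le_toNat b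
    omega
  refine ⟨l, fun L hL => ?_⟩
  set S : Set (Set.Icc (-(L : ℤ)) L → Fin 6) :=
    Set.range (fun n : ℕ => fun i : Set.Icc (-(L : ℤ)) L => F^[n] x i) with hS
  -- overwrite a word by `y` on the central window
  set ov : (Set.Icc (-(L : ℤ)) L → Fin 6) → (Set.Icc (-(L : ℤ)) L → Fin 6) :=
    fun w i => if (i : ℤ) ∈ Set.Icc (-(l : ℤ)) l then y i else w i with hov
  have hmem : ∀ w, ov w ∈ S := by
    intro w
    set r : Config → (Set.Icc (-(L : ℤ)) L → Fin 6) := fun y i => y i with hr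
    have hcont : Continuous r := by
      rw [hr]
      fun_prop
    have hopen2 : IsOpen (r ⁻¹' {ov w}) := (isOpen_discrete _).preimage hcont
    set y' : Config := fun i => if hi : i ∈ Set.Icc (-(L : ℤ)) L then ov w ⟨i, hi⟩ else 0 with hy'
    have hy'1 : y' ∈ r ⁻¹' {ov w} := by
      rw [Set.mem_preimage, Set.mem_singleton_iff, hr]
      funext i
      simp only [hy']
      rw [dif_pos i.2]
    have hy'2 : y' ∈ closure (orbit x) := by
      apply interior_subset
      apply hIU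
      intro i hi
      have hil := hl i hi
      rw [abs_le] at hil
      have hiL : i ∈ Set.Icc (-(L : ℤ)) L := by
        simp only [Set.mem_Icc]; omega
      have : y' i = y i := by
        simp only [hy', dif_pos hiL, hov]
        rw [if_pos]
        simp only [Set.mem_Icc]
        omega
      rw [this]
      exact (hu i hi).2
    obtain ⟨v, hv1, ⟨n, rfl⟩⟩ := mem_closure_iff.mp hy'2 _ hopen2 hy'1
    exact ⟨n, hv1⟩
  have hinj : Function.Injective (fun w : Set.Icc (-(L : ℤ)) L → Fin 6 =>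
      ((⟨ov w, hmem w⟩ : S), (fun i : Set.Icc (-(l : ℤ)) l =>
        w ⟨i, by have := i.2; simp only [Set.mem_Icc] at this ⊢; omega⟩))) := by
    intro w1 w2 h12
    simp only [Prod.mk.injEq, Subtype.mk.injEq] at h12
    funext i
    by_cases hi : (i : ℤ) ∈ Set.Icc (-(l : ℤ)) l
    · exact congrFun h12.2 ⟨i, hi⟩
    · have := congrFun h12.1 i
      simp only [hov, if_neg hi] at this
      exact this
  have hcard := Nat.card_le_card_of_injective _ hinj
  have hword : ∀ m : ℕ, Nat.card (Set.Icc (-(m : ℤ)) m → Fin 6) = 6 ^ (2 * m + 1) := by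
    intro m
    rw [Nat.card_fun, Nat.card_eq_fintype_card, Nat.card_eq_fintype_card, Fintype.card_fin]
    congr 1
    rw [Fintype.card_ofFinset]
    simp
    omega
  rw [Nat.card_prod, hword, hword, Nat.card_coe_set_eq] at hcard
  exact hcard

/-- **Main theorem.** The following are equivalent:
* some finite configuration has a dense forward orbit under `F` (this is Q1);
* every finite configuration other than the all-zero one has a dense forward orbit under `F`
  (this is Q2);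
* for every nonzero rational `ξ` the fractional parts of `ξ (3/2)^n` are dense in `[0,1]`;
* some finite configuration has a somewhere dense forward orbit;
* some finite configuration has near-maximal complexity: for every `δ > 0` there are infinitely
  many `L` such that its orbit shows at least `6^((1-δ)(2L+1))` of the `6^(2L+1)` words at the
  positions `-L,...,L`. -/
theorem result : List.TFAE [
    ∃ x : Config, IsFin x ∧ Dense (orbit x),
    ∀ x : Config, IsFin x → x ≠ 0 → Dense (orbit x),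
    ∀ ξ : ℚ, ξ ≠ 0 →
      Set.Icc (0 : ℝ) 1 ⊆ closure (Set.range fun n : ℕ => Int.fract ((ξ : ℝ) * (3 / 2) ^ n)),
    ∃ x : Config, IsFin x ∧ (interior (closure (orbit x))).Nonempty,
    ∃ x : Config, IsFin x ∧ ∀ δ : ℝ, 0 < δ →
      ∃ᶠ L : ℕ in Filter.atTop, (6 : ℝ) ^ ((1 - δ) * (2 * L + 1)) ≤ complexity x L] := by
  tfae_have 1 → 4 := by
    rintro ⟨x, hx, hd⟩
    refine ⟨x, hx, ?_⟩
    rw [hd.closure_eq, interior_univ]
    exact Set.univ_nonempty
  tfae_have 4 → 5 := by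
    rintro ⟨x, hx, hd⟩
    obtain ⟨l, hl⟩ := complexity_of_somewhere_dense hd
    refine ⟨x, hx, fun δ hδ => Filter.Eventually.frequently ?_⟩
    obtain ⟨L0, hL0⟩ := exists_nat_ge ((2 * l + 1 : ℝ) / δ)
    filter_upwards [Filter.eventually_ge_atTop (max l L0)] with L hL
    have h1 := hl L (le_trans (le_max_left _ _) hL)
    have h2 : (6 : ℝ) ^ (2 * L + 1) ≤ complexity x L * 6 ^ (2 * l + 1) := by exact_mod_cast h1
    have h3 : (L0 : ℝ) ≤ L := by exact_mod_cast le_trans (le_max_right _ _) hL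
    have h4 : (2 * l + 1 : ℝ) ≤ δ * L := by
      rw [div_le_iff₀ hδ] at hL0
      nlinarith
    rw [← div_le_iff₀ (by positivity)] at h2
    refine le_trans ?_ h2
    rw [le_div_iff₀ (by positivity), ← Real.rpow_natCast, ← Real.rpow_natCast,
      ← Real.rpow_add (by norm_num)]
    apply Real.rpow_le_rpow_of_exponent_le (by norm_num)
    push_cast
    nlinarith [Nat.cast_nonneg (α := ℝ) L]
  tfae_have 5 → 3 := by
    rintro ⟨x, hx, hδ⟩ ξ hξ
    obtain ⟨N, r, rfl⟩ := fin_eq_dig hx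
    set z : ℝ := (N : ℝ) / 6 ^ r with hz
    have hz0 : 0 ≤ z := by positivity
    have hNF : NF (P z) := by
      intro δ hδ0
      refine (hδ δ hδ0).mono fun L hL => hL.trans ?_
      exact_mod_cast complexity_le z L
    have hN : 0 < N := by
      rcases Nat.eq_zero_or_pos N with h0 | h0
      · exfalso
        have h1 := NF_full hNF 0 1 (by norm_num)
        obtain ⟨n, hn⟩ := h1
        simp [hz, h0, code] at hn
      · exact h0
    have key : ∀ q : ℚ, 0 < q →
        Set.Icc (0 : ℝ) 1 ⊆ closure (Set.range fun n : ℕ => Int.fract ((q : ℝ) * (3 / 2) ^ n)) := by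
      intro q hq
      have hqnum : 0 < q.num := Rat.num_pos.mpr hq
      obtain ⟨a, ha⟩ : ∃ a : ℕ, q.num = a := ⟨q.num.toNat, (Int.toNat_of_nonneg hqnum.le).symm⟩
      have ha0 : 0 < a := by omega
      have hqR : (q : ℝ) = a / q.den := by
        rw [Rat.cast_def, ha]; simp
      apply fract_dense_of_codes (by positivity)
      intro l W hW
      have hden : (0 : ℝ) < q.den := by exact_mod_cast q.den_pos
      refine codes_of_multiple (z := z) (y := (q : ℝ)) (m := N * q.den) (m' := a * 6 ^ r)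
        (by positivity) (by positivity) ?_ hNF l W hW
      rw [hqR, hz]
      push_cast
      field_simp
    rcases lt_or_gt_of_ne hξ with h | h
    · have h1 := key (-ξ) (by linarith)
      have h2 := fract_closure_neg h1
      push_cast at h2
      rw [neg_neg] at h2
      exact h2
    · exact key ξ h
  tfae_have 3 → 2 := by
    intro h x hx hne
    obtain ⟨N, r, rfl⟩ := fin_eq_dig hx
    have hN : N ≠ 0 := by
      rintro rfl
      apply hne
      funext i
      apply Fin.ext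
      simp [dig]
    apply dense_of_codes
    intro l W hW
    apply code_of_fract (by positivity) l W hW
    have h1 := h ((N : ℚ) / 6 ^ r / 6 ^ (l + 1)) (by positivity)
    push_cast at h1
    exact h1
  tfae_have 2 → 1 := by
    intro h
    refine ⟨fun i => if i = 0 then 1 else 0, ?_, h _ ?_ ?_⟩
    · apply (Set.finite_singleton (0 : ℤ)).subset
      intro i hi
      by_contra hne
      simp at hne
      simp [hne] at hi
    · apply (Set.finite_singleton (0 : ℤ)).subset
      intro i hi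
      by_contra hne
      simp at hne
      simp [hne] at hi
    · intro h0
      have := congrFun h0 0
      simp at this
  tfae_finish

end Pool.Agent.Results.MP_cc0c1a_nt.Dichotomy
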