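import Pool.Agent.Lib.MP_cc0c1a_nt.Sub.Asm
import Pool.Agent.Lib.MP_cc0c1a_nt.Sub.R1
import Pool.Agent.Lib.MP_cc0c1a_nt.Sub.R2
import Pool.Agent.Lib.MP_cc0c1a_nt.Sub.R3
import Pool.Agent.Lib.MP_cc0c1a_nt.Sub.R4
import Pool.Agent.Lib.MP_cc0c1a_nt.Sub.R5
import Pool.Agent.Lib.MP_cc0c1a_nt.Sub.R6
import Pool.Agent.Lib.MP_cc0c1a_nt.Sub.R7
import Pool.Agent.Lib.MP_cc0c1a_nt.Sub.R8
import Pool.Agent.Lib.MP_cc0c1a_nt.Sub.R9
import Pool.Agent.Lib.MP_cc0c1a_nt.Sub.R10
import Pool.Agent.Lib.MP_cc0c1a_nt.Sub.R11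
import Pool.Agent.Lib.MP_cc0c1a_nt.Sub.R12
import Pool.Agent.Lib.MP_cc0c1a_nt.Sub.R13
import Pool.Agent.Lib.MP_cc0c1a_nt.Sub.R14
import Pool.Agent.Lib.MP_cc0c1a_nt.Sub.R15
import Pool.Agent.Lib.MP_cc0c1a_nt.Sub.M1
import Pool.Agent.Lib.MP_cc0c1a_nt.Sub.M2
import Pool.Agent.Lib.MP_cc0c1a_nt.Sub.M3
import Pool.Agent.Lib.MP_cc0c1a_nt.Sub.M4
import Pool.Agent.Lib.MP_cc0c1a_nt.Sub.M5
import Pool.Agent.Lib.MP_cc0c1a_nt.Sub.M6
import Pool.Agent.Lib.MP_cc0c1a_nt.Sub.M7
import Pool.Agent.Lib.MP_cc0c1a_nt.Sub.M8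
import Pool.Agent.Lib.MP_cc0c1a_nt.Sub.M9
import Pool.Agent.Lib.MP_cc0c1a_nt.Sub.M10
import Pool.Agent.Lib.MP_cc0c1a_nt.Sub.M11
import Pool.Agent.Lib.MP_cc0c1a_nt.Sub.D1
import Pool.Agent.Lib.MP_cc0c1a_nt.Sub.D2
import Pool.Agent.Lib.MP_cc0c1a_nt.Sub.D3
import Pool.Agent.Lib.MP_cc0c1a_nt.Sub.D4
import Pool.Agent.Lib.MP_cc0c1a_nt.Sub.D5
import Pool.Agent.Lib.MP_cc0c1a_nt.Sub.D6
import Pool.Agent.Lib.MP_cc0c1a_nt.Sub.D7
import Pool.Agent.Lib.MP_cc0c1a_nt.Sub.D8
import Pool.Agent.Lib.MP_cc0c1a_nt.Sub.D9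
import Pool.Agent.Lib.MP_cc0c1a_nt.Sub.D10
import Pool.Agent.Lib.MP_cc0c1a_nt.Sub.D11
import Pool.Agent.Lib.MP_cc0c1a_nt.Sub.D12

/-!
# MP_cc0c1a_nt: superlinear complexity at every position, in space and in time

The proof is an instance of the `S`-adic Subspace theorem (three variables, places `∞, 2, 3`) in the
form of the theorem on the next-to-last minimum, proved from scratch: Roth's lemma with generalised
Wronskians, Siegel's lemma, and an explicit dichotomy for the planes.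
-/

namespace MPcc0c1aSub

/-- The two-power theorem. -/
theorem twoPowHolds : TwoPow := by
  have hR : RothAll :=
    rothAll (rothStep hasseCoeff (hasseShift hasseCoeff)
      (indexCalc hasseCoeff (hasseShift hasseCoeff))
      (indexDet (indexCalc hasseCoeff (hasseShift hasseCoeff))) uniMult uniWronskian
      (genWronskian hasseCoeff uniWronskian kronecker curveDeriv) rankFactor
      (separated hasseCoeff) (detFactor hasseCoeff (separated hasseCoeff))
      (detHeight hasseCoeff normCalc) numSum)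
  have hM : Machine :=
    machine (aux countJ cardJ (change normCalc))
      (vanish cardJ (realBound normCalc) divBound) gcdChoice dehom hR
  exact twoPow hM dichotomy kappaBound (caseTwo kappaBound existsNormal)
    caseOne

end MPcc0c1aSub

namespace Pool.Agent.Results.MP_cc0c1a_nt.SuperlinearEverywhere

open MPcc0c1aSub

/-- **Superlinear complexity at every position.**  Let `x` be a finite configuration other than the
all-zero one and `j` a position.  (1) For every `ε > 0` and all large `m` the word of length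
`l ≥ ε m` shown at `j` by `F^m(x)` is different from those shown by `F^n(x)`, `n < m`, and the word
of the digits at `j` at the times `m, …, m + l - 1` is different from those at the times
`n, …, n + l - 1`, `n < m`.  (2) For every `C`, for all large `l`, at least `C l` words of length
`l` are shown at `j`, and at least `C l` words of length `l` occur in the sequence in time of the
digits at `j`. -/
theorem result : ∀ x : Config, IsFin x → x ≠ 0 → ∀ j : ℤ,
    (∀ ε : ℝ, 0 < ε → ∃ N₀ : ℕ, ∀ m ≥ N₀, ∀ n < m, ∀ l : ℕ, ε * m ≤ l →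
      rowWord x j l n ≠ rowWord x j l m ∧ colWord x j l n ≠ colWord x j l m) ∧
    ∀ C : ℝ, ∃ l₀ : ℕ, ∀ l ≥ l₀, C * l ≤ ((Set.range (rowWord x j l)).ncard : ℝ) ∧
      C * l ≤ ((Set.range (colWord x j l)).ncard : ℝ) :=
  final (rowSep twoPowHolds digits rowEq) (colSep twoPowHolds digits colEq) count

end Pool.Agent.Results.MP_cc0c1a_nt.SuperlinearEverywhere
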